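import Pool.Agent.helper7.EP.SpecA

/-!
# Project ep:, module EXP: exceptional primes of the third type
-/

set_option autoImplicit false

open Finset PowerSeries

noncomputable section

namespace Pool.Agent.EP

theorem EXP_ws (A k : ℕ) (hk : k ≤ 12 * A) : #(ws (k * A)) ≤ A := by
  calc #(ws (k * A)) ≤ #((range A).image fun i => 2 * i + 1) := by
        refine card_le_card ?_
        intro w hw
        rw [ws, mem_filter] at hw
        obtain ⟨-, h1, h2⟩ := hw
        have h3 : w < 2 * A := by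
          by_contra hcon
          push Not at hcon
          have h4 : (2 * A) * (2 * A) ≤ w * w := Nat.mul_le_mul hcon hcon
          have h5 : k * A ≤ 12 * A * A := Nat.mul_le_mul_right A hk
          nlinarith
        rw [mem_image]
        exact ⟨w / 2, mem_range.2 (by omega), by omega⟩
    _ ≤ #(range A) := card_image_le
    _ = A := card_range A

theorem EXP : EXP_stmt := by
  classical
  intro a y k hk hy
  obtain ⟨A, hA⟩ : ∃ A, A = 2 ^ a := ⟨_, rfl⟩
  have hE : ∀ p ∈ ExP a y k, ∃ w ∈ ws (k * 2 ^ a), p ∣ k * 2 ^ a - 3 * w ^ 2 := by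
    intro p hp
    unfold ExP at hp
    exact (mem_filter.1 hp).2
  have hP : ∀ p ∈ ExP a y k, y < p ∧ p.Prime := by
    intro p hp
    unfold ExP at hp
    have h1 := (mem_filter.1 hp).1
    unfold Pt at h1
    rw [mem_filter, mem_Ioc] at h1
    exact ⟨h1.1.1, h1.2.1⟩
  rw [← hA] at hk hy hE ⊢
  choose! f hf1 hf2 using hE
  refine (card_le_card_of_injOn f (fun p hp => hf1 p hp) ?_).trans (EXP_ws A k hk)
  intro p hp p' hp' hpp
  by_contra hne
  obtain ⟨y1, q1⟩ := hP p hp
  obtain ⟨y2, q2⟩ := hP p' hp'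
  have d1 := hf2 p hp
  have d2 := hf2 p' hp'
  rw [← hpp] at d2
  have d3 : p * p' ∣ k * A - 3 * f p ^ 2 :=
    ((Nat.coprime_primes q1 q2).2 hne).mul_dvd_of_dvd_of_dvd d1 d2
  have hw := hf1 p hp
  rw [ws, mem_filter] at hw
  obtain ⟨-, -, h2⟩ := hw
  have h3 := Nat.le_of_dvd (by omega) d3
  have h4 : k * A ≤ 12 * A * A := Nat.mul_le_mul_right A hk
  have h5 : (4 * A) * (4 * A) ≤ p * p' := Nat.mul_le_mul (by omega) (by omega)
  have h6 : 0 < A := by rw [hA]; positivity
  have h7 : p * p' ≤ k * A := h3.trans (Nat.sub_le _ _)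
  nlinarith

end Pool.Agent.EP
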