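import Pool.Agent.helper81.EP.SpecO

/-!
# Project ep, module OM: multiplicity of the odd values
-/

set_option autoImplicit false

open Finset

noncomputable section

namespace Pool.Agent.EP

theorem OM_pt (b e n : ℕ) (h : Rch b e n) : ∃ w d s j M : ℕ, w ∈ ws (4 ^ b) ∧ 0 < d ∧ d < 2 ^ b * e ∧ 1 ≤ s ∧
    s ≤ 4 ^ b * n ∧ Odd (Fintype.card (Nat.Partition s)) ∧ 4 ^ b - 3 * w ^ 2 = d * j ∧
    24 * n + 3 - 4 ^ b = d * M ∧ j * M = 24 * s - 1 := by
  obtain ⟨w, hw, d, s, hd, hde, hs1, hs2, hodd, ⟨j, hj⟩, ⟨M, hM⟩, hprod⟩ := h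
  refine ⟨w, d, s, j, M, hw, hd, hde, hs1, hs2, hodd, hj, hM, ?_⟩
  rw [hj, hM] at hprod
  have h2 : d ^ 2 * (j * M) = d ^ 2 * (24 * s - 1) := by
    rw [← hprod]; ring
  exact Nat.eq_of_mul_eq_mul_left (by positivity) h2

theorem OM (hOW : OW_stmt) : OM_stmt := by
  classical
  intro b e X D hb hD N hN
  have hch : ∀ n ∈ N, ∃ w d s j M : ℕ, w ∈ ws (4 ^ b) ∧ 0 < d ∧ d < 2 ^ b * e ∧ 1 ≤ s ∧
    s ≤ 4 ^ b * n ∧ Odd (Fintype.card (Nat.Partition s)) ∧ 4 ^ b - 3 * w ^ 2 = d * j ∧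
    24 * n + 3 - 4 ^ b = d * M ∧ j * M = 24 * s - 1 := fun n hn => OM_pt b e n (hN n hn).2.2
  choose! w d s j M hw hd hde hs1 hs2 hodd hj hM hjM using hch
  set S : Finset ℕ := {n ∈ range (4 ^ b * X + 1) | Odd (Fintype.card (Nat.Partition n))} with hS
  set W : ℕ → Finset ℕ := fun j => {w ∈ ws (4 ^ b) | j ∣ 4 ^ b - 3 * w ^ 2 ∧ 4 ^ b - 3 * w ^ 2 < 2 ^ b * e * j} with hW
  set T : Finset ((_ : ℕ) × ((_ : ℕ) × ℕ)) := S.sigma (fun s => (24 * s - 1).divisors.sigma (fun j => W j)) with hT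
  have hpos : ∀ n ∈ N, 0 < j n := by
    intro n hn
    rcases Nat.eq_zero_or_pos (j n) with h0 | h0
    · have h1 := hjM n hn
      rw [h0, Nat.zero_mul] at h1
      have h2 := hs1 n hn
      omega
    · exact h0
  have hcard : #N ≤ #T := by
    refine Finset.card_le_card_of_injOn (fun n => ⟨s n, ⟨j n, w n⟩⟩) ?_ ?_
    · intro n hn
      have hn' : n ∈ N := hn
      have hsX : s n ≤ 4 ^ b * X := (hs2 n hn').trans (Nat.mul_le_mul_left _ (hN n hn').1)
      have h1 := hjM n hn'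
      have h2 := hs1 n hn'
      simp only [hT, hS, hW, Finset.coe_sigma, Set.mem_sigma_iff, Finset.mem_coe, Finset.mem_sigma, Finset.mem_filter,
        Finset.mem_range, Nat.mem_divisors]
      refine ⟨⟨by omega, hodd n hn'⟩, ⟨⟨M n, h1.symm⟩, by omega⟩, hw n hn', ?_, ?_⟩
      · rw [hj n hn']; exact Dvd.intro_left _ rfl
      · rw [hj n hn']
        exact Nat.mul_lt_mul_of_pos_right (hde n hn') (hpos n hn')
    · intro n hn m hm heq
      have hn' : n ∈ N := hn
      have hm' : m ∈ N := hm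
      simp only [Sigma.mk.injEq, heq_eq_eq] at heq
      obtain ⟨e1, e2, e3⟩ := heq
      have hd' : d n = d m := by
        have h1 := hj n hn'
        have h2 := hj m hm'
        rw [e3, h2, e2] at h1
        exact (Nat.eq_of_mul_eq_mul_right (hpos m hm') h1).symm
      have hM' : M n = M m := by
        have h1 := hjM n hn'
        have h2 := hjM m hm'
        rw [e1, ← h2, e2] at h1
        exact Nat.eq_of_mul_eq_mul_left (hpos m hm') h1
      have h1 := hM n hn'
      have h2 := hM m hm'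
      rw [hd', hM', ← h2] at h1
      have h3 := (hN n hn').2.1
      have h4 := (hN m hm').2.1
      omega
  have hTle : #T ≤ #S * ((2 * e + 2) * D ^ 2) := by
    rw [hT, Finset.card_sigma]
    have : ∀ x ∈ S, #((24 * x - 1).divisors.sigma (fun j => W j)) ≤ (2 * e + 2) * D ^ 2 := by
      intro x hx
      have hx' : x < 4 ^ b * X + 1 := by
        have := (Finset.mem_filter.mp hx).1
        exact Finset.mem_range.mp this
      rw [Finset.card_sigma]
      rcases Nat.eq_zero_or_pos (24 * x - 1) with h0 | h0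
      · rw [h0]; simp
      have hle : 24 * x - 1 ≤ 24 * (4 ^ b * X) := by omega
      have h1 : ∀ y ∈ (24 * x - 1).divisors, #(W y) ≤ (2 * e + 2) * D := by
        intro y hy
        have hy' := Nat.mem_divisors.mp hy
        have hy0 : 0 < y := Nat.pos_of_dvd_of_pos hy'.1 h0
        have hyle : y ≤ 24 * x - 1 := Nat.le_of_dvd h0 hy'.1
        calc #(W y) ≤ (2 * e + 2) * #y.divisors := hOW b e y hb hy0
          _ ≤ (2 * e + 2) * D := Nat.mul_le_mul_left _ (hD y hy0 (hyle.trans hle))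
      calc ∑ y ∈ (24 * x - 1).divisors, #(W y) ≤ #(24 * x - 1).divisors • ((2 * e + 2) * D) :=
            Finset.sum_le_card_nsmul _ _ _ h1
        _ = #(24 * x - 1).divisors * ((2 * e + 2) * D) := by rw [smul_eq_mul]
        _ ≤ D * ((2 * e + 2) * D) := Nat.mul_le_mul_right _ (hD _ h0 hle)
        _ = (2 * e + 2) * D ^ 2 := by ring
    calc ∑ x ∈ S, #((24 * x - 1).divisors.sigma (fun j => W j)) ≤ #S • ((2 * e + 2) * D ^ 2) :=
          Finset.sum_le_card_nsmul _ _ _ this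
      _ = #S * ((2 * e + 2) * D ^ 2) := by rw [smul_eq_mul]
  exact hcard.trans hTle

end Pool.Agent.EP
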